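import Mathlib

/-!
Zeros outside the unit circle of commuting polynomials `A(q) B(q^p) = B(q) A(q^r)`.
-/

set_option autoImplicit false

namespace Pool.Agent.W5h37.QM

open Polynomial

/-- sum of a weight over the zeros -/
noncomputable def W (w : ℂ → ℝ) (F : ℂ[X]) : ℝ := (F.roots.map w).sum

theorem W_mul (w : ℂ → ℝ) {F G : ℂ[X]} (h : F * G ≠ 0) : W w (F * G) = W w F + W w G := by
  unfold W
  rw [roots_mul h, Multiset.map_add, Multiset.sum_add]

theorem comp_roots {F : ℂ[X]} (hF : F ≠ 0) {k : ℕ} (hk : 0 < k) :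
    (F.comp (X ^ k)).roots = F.roots.bind fun z => (X ^ k - C z : ℂ[X]).roots := by
  have h1 : F = C F.leadingCoeff * (F.roots.map fun z => X - C z).prod :=
    (IsAlgClosed.splits F).eq_prod_roots
  have h2 : F.comp (X ^ k) = C F.leadingCoeff * (F.roots.map fun z => (X ^ k - C z : ℂ[X])).prod := by
    conv_lhs => rw [h1]
    rw [mul_comp, C_comp, multiset_prod_comp, Multiset.map_map]
    congr 3
    funext z
    simp
  rw [h2, roots_C_mul _ (leadingCoeff_ne_zero.2 hF), roots_multiset_prod, Multiset.bind_map]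
  intro h0
  obtain ⟨z, -, hz⟩ := Multiset.mem_map.1 h0
  exact X_pow_sub_C_ne_zero hk z hz

theorem W_comp (g : ℝ → ℝ) {F : ℂ[X]} (hF : F ≠ 0) {k : ℕ} (hk : 0 < k) :
    W (fun z => g (Real.log ‖z‖)) (F.comp (X ^ k)) =
      W (fun z => k * g (Real.log ‖z‖ / k)) F := by
  unfold W
  rw [comp_roots hF hk, Multiset.map_bind, Multiset.sum_bind]
  congr 1
  apply Multiset.map_congr rfl
  intro z _
  have h1 : ∀ x ∈ (X ^ k - C z : ℂ[X]).roots, g (Real.log ‖x‖) = g (Real.log ‖z‖ / k) := by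
    intro x hx
    have h2 : x ^ k = z := by
      have := (mem_roots (X_pow_sub_C_ne_zero hk z)).1 hx
      rw [IsRoot.def, eval_sub, eval_pow, eval_X, eval_C, sub_eq_zero] at this
      exact this
    rw [← h2, norm_pow, Real.log_pow]
    congr 1
    have hk0 : (k : ℝ) ≠ 0 := by exact_mod_cast hk.ne'
    field_simp
  rw [Multiset.map_congr rfl h1, Multiset.map_const', Multiset.sum_replicate, nsmul_eq_mul]
  congr 1
  have h3 := (IsAlgClosed.splits (X ^ k - C z : ℂ[X])).natDegree_eq_card_roots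
  rw [natDegree_X_pow_sub_C] at h3
  exact_mod_cast h3.symm

/-- the weight -/
noncomputable def H (φ : ℝ →ₗ[ℚ] ℚ) (L : ℝ) : ℝ := if 0 < L then (φ L : ℝ) * Real.log L else 0

noncomputable def J (φ : ℝ →ₗ[ℚ] ℚ) (L : ℝ) : ℝ := if 0 < L then (φ L : ℝ) else 0

theorem H_div (φ : ℝ →ₗ[ℚ] ℚ) {k : ℕ} (hk : 0 < k) (L : ℝ) :
    (k : ℝ) * H φ (L / k) = H φ L - Real.log k * J φ L := by
  have hk0 : (0 : ℝ) < k := by exact_mod_cast hk
  unfold H J
  by_cases hL : 0 < L
  · rw [if_pos hL, if_pos hL, if_pos (by positivity)]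
    have h1 : L / k = ((1 / k : ℚ)) • L := by
      rw [Algebra.smul_def]
      simp only [eq_ratCast]
      push_cast
      ring
    have h2 : (φ (L / k) : ℝ) = (φ L : ℝ) / k := by
      rw [h1, map_smul, smul_eq_mul]
      push_cast
      ring
    rw [h2, Real.log_div hL.ne' hk0.ne']
    field_simp
  · rw [if_neg hL, if_neg hL, if_neg (by
      intro h
      apply hL
      have := mul_pos h hk0
      rwa [div_mul_cancel₀ _ hk0.ne'] at this)]
    ring

theorem W_comp_H (φ : ℝ →ₗ[ℚ] ℚ) {F : ℂ[X]} (hF : F ≠ 0) {k : ℕ} (hk : 0 < k) :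
    W (fun z => H φ (Real.log ‖z‖)) (F.comp (X ^ k)) =
      W (fun z => H φ (Real.log ‖z‖)) F - Real.log k * W (fun z => J φ (Real.log ‖z‖)) F := by
  rw [W_comp (H φ) hF hk]
  unfold W
  rw [← Multiset.sum_map_mul_left, ← Multiset.sum_map_sub]
  congr 1
  apply Multiset.map_congr rfl
  intro z _
  exact H_div φ hk _

/-- `log p / log r` is irrational -/
theorem log_indep {p r : ℕ} (hp : p.Prime) (hr : r.Prime) (hpr : p ≠ r) (x y : ℚ)
    (h : Real.log p * x = Real.log r * y) : y = 0 := by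
  by_contra hy
  have hlp : 0 < Real.log p := Real.log_pos (by exact_mod_cast hp.one_lt)
  have hlr : 0 < Real.log r := Real.log_pos (by exact_mod_cast hr.one_lt)
  have hyR : (y : ℝ) ≠ 0 := by exact_mod_cast hy
  set t : ℚ := x / y with ht
  have h1 : Real.log r = Real.log p * t := by
    rw [ht]
    push_cast
    field_simp
    linarith
  have ht0 : 0 < t := by
    have : 0 < Real.log p * (t : ℝ) := by rw [← h1]; exact hlr
    have h2 : 0 < (t : ℝ) := by
      rcases pos_and_pos_or_neg_and_neg_of_mul_pos this with h | h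
      · exact h.2
      · linarith [h.1]
    exact_mod_cast h2
  obtain ⟨a, b, hb, hab⟩ : ∃ a b : ℕ, 0 < b ∧ t = a / b := by
    refine ⟨t.num.toNat, t.den, t.den_pos, ?_⟩
    have h3 : (t.num.toNat : ℤ) = t.num := Int.toNat_of_nonneg (Rat.num_nonneg.2 ht0.le)
    have h4 : ((t.num.toNat : ℕ) : ℚ) = (t.num : ℚ) := by
      exact_mod_cast congrArg (fun z : ℤ => (z : ℚ)) h3
    rw [h4]
    exact (Rat.num_div_den t).symm
  have hbR : (0 : ℝ) < b := by exact_mod_cast hb
  have h5 : (b : ℝ) * Real.log r = a * Real.log p := by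
    rw [h1, hab]
    push_cast
    field_simp
  rw [← Real.log_pow, ← Real.log_pow] at h5
  have h6 : ((r : ℝ) ^ b) = (p : ℝ) ^ a :=
    Real.log_injOn_pos (Set.mem_Ioi.2 (pow_pos (by exact_mod_cast hr.pos) _))
      (Set.mem_Ioi.2 (pow_pos (by exact_mod_cast hp.pos) _)) h5
  have h7 : r ^ b = p ^ a := by exact_mod_cast h6
  have h8 : r ∣ p ^ a := by
    rw [← h7]
    exact dvd_pow_self r hb.ne'
  have h9 := (Nat.prime_dvd_prime_iff_eq hr hp).1 (hr.dvd_of_dvd_pow h8)
  exact hpr h9.symm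

theorem J_rat (φ : ℝ →ₗ[ℚ] ℚ) (F : ℂ[X]) :
    W (fun z => J φ (Real.log ‖z‖)) F =
      ((φ ((F.roots.map fun z => if 0 < Real.log ‖z‖ then Real.log ‖z‖ else 0).sum) : ℚ) : ℝ) := by
  unfold W
  rw [map_multiset_sum, Multiset.map_map]
  have h1 := map_multiset_sum (Rat.castHom ℝ)
    (F.roots.map (fun z => φ (if 0 < Real.log ‖z‖ then Real.log ‖z‖ else 0)))
  rw [Multiset.map_map] at h1
  have h2 : ((Multiset.map (⇑φ ∘ fun z => if 0 < Real.log ‖z‖ then Real.log ‖z‖ else 0)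
      F.roots).sum : ℝ) = (Rat.castHom ℝ) (Multiset.map (fun z => φ (if 0 < Real.log ‖z‖ then
        Real.log ‖z‖ else 0)) F.roots).sum := rfl
  rw [h2, h1]
  congr 1
  apply Multiset.map_congr rfl
  intro z _
  unfold J
  simp only [Function.comp]
  split_ifs with h
  · rfl
  · simp

/-- **Main lemma.** -/
theorem no_zeros {p r : ℕ} (hp : p.Prime) (hr : r.Prime) (hpr : p ≠ r) {A B : ℂ[X]} (hA : A ≠ 0)
    (hB : B ≠ 0) (h : A * B.comp (X ^ p) = B * A.comp (X ^ r)) (z : ℂ) (hz : z ∈ A.roots) :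
    ‖z‖ ≤ 1 := by
  have hcomp : ∀ (F : ℂ[X]), F ≠ 0 → ∀ k : ℕ, 0 < k → F.comp (X ^ k) ≠ 0 := by
    intro F hF k hk h0
    rw [comp_eq_zero_iff] at h0
    rcases h0 with h0 | ⟨-, h0⟩
    · exact hF h0
    · have h1 : (X ^ k : ℂ[X]).natDegree = 0 := by rw [h0]; exact natDegree_C _
      rw [natDegree_X_pow] at h1
      omega
  set S : ℝ := (A.roots.map fun z => if 0 < Real.log ‖z‖ then Real.log ‖z‖ else 0).sum with hS
  have key : ∀ φ : ℝ →ₗ[ℚ] ℚ, φ S = 0 := by
    intro φ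
    have h1 := congrArg (W (fun z => H φ (Real.log ‖z‖))) h
    rw [W_mul _ (mul_ne_zero hA (hcomp B hB p hp.pos)), W_mul _ (mul_ne_zero hB (hcomp A hA r hr.pos)),
      W_comp_H φ hB hp.pos, W_comp_H φ hA hr.pos] at h1
    have h2 : Real.log p * W (fun z => J φ (Real.log ‖z‖)) B =
        Real.log r * W (fun z => J φ (Real.log ‖z‖)) A := by linarith
    rw [J_rat, J_rat] at h2
    exact log_indep hp hr hpr _ _ h2
  have hS0 : S = 0 := (Module.forall_dual_apply_eq_zero_iff ℚ S).1 key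
  by_contra hcon
  push Not at hcon
  have hpos : 0 < Real.log ‖z‖ := Real.log_pos hcon
  have hle : Real.log ‖z‖ ≤ S := by
    rw [hS]
    have h3 : (if 0 < Real.log ‖z‖ then Real.log ‖z‖ else 0) ∈
        A.roots.map (fun z => if 0 < Real.log ‖z‖ then Real.log ‖z‖ else 0) :=
      Multiset.mem_map_of_mem _ hz
    rw [if_pos hpos] at h3
    refine Multiset.single_le_sum ?_ _ h3
    intro y hy
    obtain ⟨w, -, rfl⟩ := Multiset.mem_map.1 hy
    split_ifs with h4
    · exact h4.le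
    · exact le_rfl
  linarith

end Pool.Agent.W5h37.QM
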